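import Mathlib

/-!
# Ambiguity of intersections of boundedly-ambiguous VASS languages (MP_bb7684)

The product bound `k₁ k₂` for the ambiguity of the intersection is tight.
-/

set_option autoImplicit false

namespace Pool.Agent.Results.MP_bb7684_lc.Intersection

variable {Λ : Type} {d : ℕ}

/-- A `d`-dimensional VASS over the alphabet `Λ`: a transition is a tuple
`(source, letter, effect, target)`; the initial configuration is `q0 (c0)`, and `F` is the set of
accepting states. -/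
structure VASS (d : ℕ) (Λ : Type) where
  /-- the states -/
  Q : Type
  finQ : Finite Q
  /-- the transitions -/
  T : Set (Q × Λ × (Fin d → ℤ) × Q)
  finT : T.Finite
  /-- the initial state -/
  q0 : Q
  /-- the initial vector -/
  c0 : Fin d → ℕ
  /-- the accepting states -/
  F : Set Q

namespace VASS

variable (V : VASS d Λ)

/-- transitions -/
abbrev Tr := V.Q × Λ × (Fin d → ℤ) × V.Q

/-- configurations -/
abbrev Conf := V.Q × (Fin d → ℕ)

/-- The transition `t` moves the configuration `c` to `c'`. -/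
def Step (t : V.Tr) (c c' : V.Conf) : Prop :=
  t ∈ V.T ∧ t.1 = c.1 ∧ t.2.2.2 = c'.1 ∧ ∀ i, (c'.2 i : ℤ) = c.2 i + t.2.2.1 i

/-- The sequence of transitions `ρ` is firable from `c` and leads to `c'`. -/
def Fires : List V.Tr → V.Conf → V.Conf → Prop
  | [], c, c' => c = c'
  | t :: ρ, c, c' => ∃ c1, V.Step t c c1 ∧ Fires ρ c1 c'

/-- The word spelled by a sequence of transitions. -/
def label (ρ : List V.Tr) : List Λ := ρ.map fun t => t.2.1

/-- The accepting runs from the configuration `c` on the word `w`. -/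
def accFrom (c : V.Conf) (w : List Λ) : Set (List V.Tr) :=
  {ρ | V.label ρ = w ∧ ∃ c', V.Fires ρ c c' ∧ c'.1 ∈ V.F}

/-- The accepting runs on the word `w`. -/
def accRuns (w : List Λ) : Set (List V.Tr) := V.accFrom (V.q0, V.c0) w

/-- `V` is `k`-ambiguous: every word has at most `k` accepting runs. -/
def Ambiguous (k : ℕ) : Prop := ∀ w, (V.accRuns w).encard ≤ k

/-- The language of `V`. -/
def lang : Set (List Λ) := {w | (V.accRuns w).Nonempty}

/-! ### Basic facts -/

/-- the order on configurations -/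
def Le (c c' : V.Conf) : Prop := c.1 = c'.1 ∧ c.2 ≤ c'.2

variable {V}

theorem Le.refl (c : V.Conf) : V.Le c c := ⟨rfl, le_refl _⟩

theorem Le.trans {c c' c'' : V.Conf} (h : V.Le c c') (h' : V.Le c' c'') : V.Le c c'' :=
  ⟨h.1.trans h'.1, h.2.trans h'.2⟩

theorem fires_append {ρ ρ' : List V.Tr} {c c' : V.Conf} :
    V.Fires (ρ ++ ρ') c c' ↔ ∃ c1, V.Fires ρ c c1 ∧ V.Fires ρ' c1 c' := by
  induction ρ generalizing c with
  | nil => simp [Fires]
  | cons t ρ ih =>
    simp only [List.cons_append, Fires, ih]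
    constructor
    · rintro ⟨c1, h1, c2, h2, h3⟩
      exact ⟨c2, ⟨c1, h1, h2⟩, h3⟩
    · rintro ⟨c2, ⟨c1, h1, h2⟩, h3⟩
      exact ⟨c1, h1, c2, h2, h3⟩

theorem label_append (ρ ρ' : List V.Tr) : V.label (ρ ++ ρ') = V.label ρ ++ V.label ρ' :=
  List.map_append ..

theorem fires_mono {ρ : List V.Tr} {c c' e : V.Conf} (h : V.Fires ρ c c') (h2 : V.Le c e) :
    ∃ e', V.Le c' e' ∧ V.Fires ρ e e' := by
  induction ρ generalizing c e with
  | nil =>
    have h : c = c' := h
    subst h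
    exact ⟨e, h2, rfl⟩
  | cons t ρ ih =>
    obtain ⟨c1, ⟨ht, h3, h4, h5⟩, h6⟩ := h
    have hs : V.Step t e (c1.1, fun i => c1.2 i + (e.2 i - c.2 i)) := by
      refine ⟨ht, h3.trans h2.1, h4, fun i => ?_⟩
      have h7 := h5 i
      have h8 : c.2 i ≤ e.2 i := h2.2 i
      push_cast [h8]
      linarith
    obtain ⟨e', h7, h8⟩ := ih h6 (e := (c1.1, fun i => c1.2 i + (e.2 i - c.2 i)))
      ⟨rfl, fun i => Nat.le_add_right _ _⟩
    exact ⟨e', h7, _, hs, h8⟩

theorem fires_diff {ρ : List V.Tr} {c c' e e' : V.Conf} (h : V.Fires ρ c c')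
    (h2 : V.Fires ρ e e') : (ρ ≠ [] → c.1 = e.1 ∧ c'.1 = e'.1) ∧
      ∀ i, (c'.2 i : ℤ) - c.2 i = e'.2 i - e.2 i := by
  induction ρ generalizing c e with
  | nil =>
    have h : c = c' := h
    have h2 : e = e' := h2
    subst h h2
    exact ⟨fun h => (h rfl).elim, fun i => by simp⟩
  | cons t ρ ih =>
    obtain ⟨c1, ⟨-, h3, h4, h5⟩, h6⟩ := h
    obtain ⟨e1, ⟨-, g3, g4, g5⟩, g6⟩ := h2
    obtain ⟨h7, h8⟩ := ih h6 g6
    refine ⟨fun _ => ⟨h3.symm.trans g3, ?_⟩, fun i => ?_⟩
    · by_cases hρ : ρ = []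
      · subst hρ
        have h6 : c1 = c' := h6
        have g6 : e1 = e' := g6
        rw [← h6, ← g6]
        exact h4.symm.trans g4
      · exact (h7 hρ).2
    · have := h8 i
      have := h5 i
      have := g5 i
      linarith

variable (V) in
/-- a nonnegative loop -/
def Loop (ρ : List V.Tr) : Prop := ρ ≠ [] ∧ ∃ c c', V.Fires ρ c c' ∧ V.Le c c'

theorem Loop.le {ρ : List V.Tr} (h : V.Loop ρ) {c c' : V.Conf} (h2 : V.Fires ρ c c') :
    V.Le c c' := by
  obtain ⟨hne, e, e', h3, h4⟩ := h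
  obtain ⟨h5, h6⟩ := fires_diff h2 h3
  obtain ⟨h7, h8⟩ := h5 hne
  refine ⟨by rw [h7, h8]; exact h4.1, fun i => ?_⟩
  have h9 : e.2 i ≤ e'.2 i := h4.2 i
  have := h6 i
  change c.2 i ≤ c'.2 i
  omega

theorem Loop.pump {ρ : List V.Tr} (h : V.Loop ρ) {c c' : V.Conf} (h2 : V.Fires ρ c c') (k : ℕ) :
    ∃ e, V.Le c' e ∧ V.Fires (List.replicate (k + 1) ρ).flatten c e := by
  induction k generalizing c c' with
  | zero => exact ⟨c', Le.refl _, by simpa⟩
  | succ k ih =>
    have h3 := h.le h2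
    obtain ⟨e, h4, h5⟩ := fires_mono h2 h3
    obtain ⟨e2, h6, h7⟩ := ih h5
    refine ⟨e2, h4.trans h6, ?_⟩
    rw [List.replicate_succ, List.flatten_cons, fires_append]
    exact ⟨c', h2, h7⟩

variable (V) in
/-- the sequence of transitions contains a nonnegative loop -/
def Cyc (ρ : List V.Tr) : Prop := ∃ ρ1 ρ2 ρ3, ρ = ρ1 ++ ρ2 ++ ρ3 ∧ V.Loop ρ2

theorem pump {ρ1 ρ2 ρ3 : List V.Tr} (h : V.Loop ρ2) {c c' : V.Conf}
    (h2 : V.Fires (ρ1 ++ ρ2 ++ ρ3) c c') (k : ℕ) :
    ∃ e, V.Le c' e ∧ V.Fires (ρ1 ++ (List.replicate (k + 1) ρ2).flatten ++ ρ3) c e := by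
  obtain ⟨c2, h3, h4⟩ := fires_append.1 h2
  obtain ⟨c1, h5, h6⟩ := fires_append.1 h3
  obtain ⟨e2, h7, h8⟩ := h.pump h6 k
  obtain ⟨e, h9, h10⟩ := fires_mono h4 h7
  exact ⟨e, h9, fires_append.2 ⟨e2, fires_append.2 ⟨c1, h5, h8⟩, h10⟩⟩

theorem Cyc.append_left {ρ : List V.Tr} (h : V.Cyc ρ) (σ : List V.Tr) : V.Cyc (σ ++ ρ) := by
  obtain ⟨ρ1, ρ2, ρ3, rfl, h⟩ := h
  exact ⟨σ ++ ρ1, ρ2, ρ3, by simp, h⟩

theorem Cyc.append_right {ρ : List V.Tr} (h : V.Cyc ρ) (σ : List V.Tr) : V.Cyc (ρ ++ σ) := by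
  obtain ⟨ρ1, ρ2, ρ3, rfl, h⟩ := h
  exact ⟨ρ1, ρ2, ρ3 ++ σ, by simp, h⟩

theorem fires_take {ρ : List V.Tr} {c c' : V.Conf} (h : V.Fires ρ c c') (n : ℕ) :
    ∃ c1, V.Fires (ρ.take n) c c1 := by
  rw [← List.take_append_drop n ρ] at h
  obtain ⟨c1, h1, -⟩ := fires_append.1 h
  exact ⟨c1, h1⟩

theorem label_take_replicate {ρ : List V.Tr} {n : ℕ} {x : Λ}
    (h : V.label ρ = List.replicate n x) (m : ℕ) (hm : m ≤ n) :
    V.label (ρ.take m) = List.replicate m x := by
  unfold label at *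
  rw [List.map_take, h, List.take_replicate, min_eq_left hm]

theorem step_unique {t : V.Tr} {c c1 c2 : V.Conf} (h1 : V.Step t c c1) (h2 : V.Step t c c2) :
    c1 = c2 := by
  obtain ⟨-, -, a1, b1⟩ := h1
  obtain ⟨-, -, a2, b2⟩ := h2
  refine Prod.ext (a1.symm.trans a2) ?_
  funext i
  have := b1 i
  have := b2 i
  omega

/-! ### Long unary blocks contain nonnegative loops -/

theorem wf_bad {α : Type} {r : α → α → Prop} (h : WellQuasiOrdered r) :
    WellFounded (fun (l' l : {l : List α // l.Pairwise fun x y => ¬ r y x}) =>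
      ∃ a, l'.1 = a :: l.1) := by
  rw [wellFounded_iff_isEmpty_descending_chain]
  constructor
  rintro ⟨f, hf⟩
  choose a ha using hf
  have hmem : ∀ m n, m < n → a m ∈ (f n).1 := by
    intro m n hmn
    induction n with
    | zero => omega
    | succ n ih =>
      rw [ha n]
      rcases Nat.lt_succ_iff_lt_or_eq.1 hmn with h1 | h1
      · exact List.mem_cons_of_mem _ (ih h1)
      · rw [h1]; exact List.mem_cons_self
  obtain ⟨m, n, hmn, hr⟩ := h a
  have h1 := (f (n + 1)).2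
  rw [ha n, List.pairwise_cons] at h1
  exact h1.1 _ (hmem m n hmn) hr

theorem wqo_le : WellQuasiOrdered V.Le := by
  have hQ : Finite V.Q := V.finQ
  have h1 : WellQuasiOrdered ((· = ·) : V.Q → V.Q → Prop) := Finite.wellQuasiOrdered _
  have h2 : WellQuasiOrdered ((· ≤ ·) : (Fin d → ℕ) → (Fin d → ℕ) → Prop) := wellQuasiOrdered_le
  have h3 := h1.prod h2
  intro f
  obtain ⟨m, n, hmn, h⟩ := h3 f
  exact ⟨m, n, hmn, h⟩

theorem exists_bound_aux (x : Λ) (l : {l : List V.Conf // l.Pairwise fun x y => ¬ V.Le y x}) :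
    ∀ c l0, l.1 = c :: l0 → ∃ n, ∀ ρ c', V.Fires ρ c c' → V.label ρ = List.replicate n x →
      V.Cyc ρ ∨ ∃ ρ1 ρ2 c1, ρ = ρ1 ++ ρ2 ∧ ρ1 ≠ [] ∧ V.Fires ρ1 c c1 ∧ ∃ e ∈ l.1, V.Le e c1 := by
  induction l using (wf_bad (wqo_le (V := V))).induction with
  | _ l ih =>
    intro c l0 hl
    have key : ∀ t : V.Tr, ∃ n, ∀ c1 ρ c', V.Step t c c1 → V.Fires ρ c1 c' →
        V.label ρ = List.replicate n x →
        V.Cyc (t :: ρ) ∨ ∃ ρ1 ρ2 c2, t :: ρ = ρ1 ++ ρ2 ∧ ρ1 ≠ [] ∧ V.Fires ρ1 c c2 ∧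
          ∃ e ∈ l.1, V.Le e c2 := by
      intro t
      by_cases hs : ∃ c1, V.Step t c c1
      · obtain ⟨c1, hs⟩ := hs
        by_cases he : ∃ e ∈ l.1, V.Le e c1
        · refine ⟨0, fun c1' ρ c' h1 h2 h3 => Or.inr ⟨[t], ρ, c1', rfl, by simp, ⟨c1', h1, rfl⟩, ?_⟩⟩
          rw [step_unique h1 hs]
          exact he
        · have hb : (c1 :: l.1).Pairwise fun x y => ¬ V.Le y x := by
            rw [List.pairwise_cons]
            refine ⟨fun e h1 h2 => he ⟨e, h1, h2⟩, l.2⟩
          obtain ⟨n, hn⟩ := ih ⟨c1 :: l.1, hb⟩ ⟨c1, rfl⟩ c1 l.1 rfl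
          refine ⟨n, fun c1' ρ c' h1 h2 h3 => ?_⟩
          rw [step_unique h1 hs] at h2
          rcases hn ρ c' h2 h3 with h4 | ⟨ρ1, ρ2, c2, rfl, h5, h6, e, h7, h8⟩
          · exact Or.inl (h4.append_left [t])
          · rcases List.mem_cons.1 h7 with rfl | h7
            · refine Or.inl ⟨[t], ρ1, ρ2, by simp, h5, e, c2, h6, h8⟩
            · exact Or.inr ⟨t :: ρ1, ρ2, c2, rfl, by simp, ⟨c1, hs, h6⟩, e, h7, h8⟩
      · refine ⟨0, fun c1 ρ c' h1 => (hs ⟨c1, h1⟩).elim⟩
    choose n hn using key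
    obtain ⟨N, hN⟩ : ∃ N, ∀ t ∈ V.T, n t ≤ N := by
      have := (V.finT.image n).bddAbove
      obtain ⟨N, hN⟩ := this
      exact ⟨N, fun t ht => hN ⟨t, ht, rfl⟩⟩
    refine ⟨N + 1, fun ρ c' h1 h2 => ?_⟩
    cases ρ with
    | nil => simp [label] at h2
    | cons t ρ =>
      obtain ⟨c1, hs, h3⟩ := h1
      have h4 : V.label ρ = List.replicate N x := by
        rw [List.replicate_succ] at h2
        exact (List.cons.inj h2).2
      obtain ⟨c2, h5⟩ := fires_take h3 (n t)
      have h6 := hn t c1 _ c2 hs h5 (label_take_replicate h4 _ (hN t hs.1))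
      have h7 : t :: ρ = (t :: ρ.take (n t)) ++ ρ.drop (n t) := by simp
      rcases h6 with h6 | ⟨ρ1, ρ2, c3, h8, h9, h10, h11⟩
      · left
        rw [h7]
        exact h6.append_right _
      · right
        refine ⟨ρ1, ρ2 ++ ρ.drop (n t), c3, ?_, h9, h10, h11⟩
        rw [h7, h8, List.append_assoc]

theorem exists_bound (c : V.Conf) (x : Λ) : ∃ n, ∀ m, n ≤ m → ∀ ρ c', V.Fires ρ c c' →
    V.label ρ = List.replicate m x → V.Cyc ρ := by
  obtain ⟨n, hn⟩ := exists_bound_aux x ⟨[c], by simp⟩ c [] rfl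
  refine ⟨n, fun m hm ρ c' h1 h2 => ?_⟩
  obtain ⟨c1, h3⟩ := fires_take h1 n
  have h4 := hn _ c1 h3 (label_take_replicate h2 n hm)
  rw [← List.take_append_drop n ρ]
  apply Cyc.append_right
  rcases h4 with h4 | ⟨ρ1, ρ2, c2, h5, h6, h7, e, h8, h9⟩
  · exact h4
  · rw [h5]
    simp only [List.mem_singleton] at h8
    subst h8
    exact ⟨[], ρ1, ρ2, by simp, h6, e, c2, h7, h9⟩

theorem exists_bound_set {S : Set V.Conf} (hS : S.Finite) (x : Λ) : ∃ n, ∀ m, n ≤ m → ∀ c ∈ S,
    ∀ ρ c', V.Fires ρ c c' → V.label ρ = List.replicate m x → V.Cyc ρ := by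
  choose n hn using fun c : V.Conf => exists_bound c x
  obtain ⟨N, hN⟩ := (hS.image n).bddAbove
  exact ⟨N, fun m hm c hc => hn c m ((hN ⟨c, hc, rfl⟩).trans hm)⟩

variable (V) in
/-- the configurations reached from `S` by `w` -/
def post (S : Set V.Conf) (w : List Λ) : Set V.Conf :=
  {c' | ∃ c ∈ S, ∃ ρ, V.label ρ = w ∧ V.Fires ρ c c'}

theorem post_finite {S : Set V.Conf} (hS : S.Finite) (w : List Λ) : (V.post S w).Finite := by
  induction w generalizing S with
  | nil =>
    refine hS.subset ?_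
    rintro c' ⟨c, hc, ρ, h1, h2⟩
    have : ρ = [] := by simpa [label] using h1
    subst this
    have h2 : c = c' := h2
    rwa [← h2]
  | cons x w ih =>
    classical
    have h1 : {c1 | ∃ c ∈ S, ∃ t ∈ V.T, V.Step t c c1}.Finite := by
      refine ((hS.prod V.finT).image fun p : V.Conf × V.Tr =>
        (p.2.2.2.2, fun i => ((p.1.2 i : ℤ) + p.2.2.2.1 i).toNat)).subset ?_
      rintro c1 ⟨c, hc, t, ht, hs⟩
      refine ⟨(c, t), ⟨hc, ht⟩, ?_⟩
      obtain ⟨-, -, h3, h4⟩ := hs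
      refine Prod.ext h3 ?_
      funext i
      change ((c.2 i : ℤ) + t.2.2.1 i).toNat = c1.2 i
      rw [← h4 i]
      simp
    refine (ih h1).subset ?_
    rintro c' ⟨c, hc, ρ, h2, h3⟩
    cases ρ with
    | nil => simp [label] at h2
    | cons t ρ =>
      obtain ⟨c1, h4, h5⟩ := h3
      exact ⟨c1, ⟨c, hc, t, h4.1, h4⟩, ρ, (List.cons.inj h2).2, h5⟩

/-! ### Words made of blocks -/

/-- the word `c a^n b^m` for each pair `(n, m)`, with `a = 0`, `b = 1`, `c = 2` -/
def W (ps : List (ℕ × ℕ)) : List (Fin 3) :=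
  ps.flatMap fun p => 2 :: List.replicate p.1 0 ++ List.replicate p.2 1

theorem W_cons (p : ℕ × ℕ) (ps : List (ℕ × ℕ)) :
    W (p :: ps) = (2 :: List.replicate p.1 0) ++ (List.replicate p.2 1 ++ W ps) := by
  simp [W]

section

variable (V : VASS d (Fin 3))

/-- blocks of a run -/
def flat (B : List (List V.Tr × List V.Tr)) : List V.Tr := B.flatMap fun b => b.1 ++ b.2

/-- the blocks spell the word of the list of pairs -/
def Lab (B : List (List V.Tr × List V.Tr)) (ps : List (ℕ × ℕ)) : Prop :=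
  List.Forall₂ (fun b p => V.label b.1 = 2 :: List.replicate p.1 0 ∧
    V.label b.2 = List.replicate p.2 1) B ps

variable {V}

theorem Lab.label {B : List (List V.Tr × List V.Tr)} {ps : List (ℕ × ℕ)} (h : Lab V B ps) :
    V.label (flat V B) = W ps := by
  induction h with
  | nil => rfl
  | @cons b p B ps h _ ih =>
    rw [W_cons, ← ih, ← h.1, ← h.2, ← label_append, ← label_append]
    simp [flat]

theorem exists_lab {ρ : List V.Tr} {ps : List (ℕ × ℕ)} (h : V.label ρ = W ps) :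
    ∃ B, ρ = flat V B ∧ Lab V B ps := by
  induction ps generalizing ρ with
  | nil =>
    have : ρ = [] := by simpa [VASS.label, W] using h
    exact ⟨[], by rw [this]; rfl, .nil⟩
  | cons p ps ih =>
    rw [W_cons] at h
    unfold VASS.label at h
    obtain ⟨ρ1, ρ', rfl, h1, h2⟩ := List.map_eq_append_iff.1 h
    obtain ⟨ρ2, ρ3, rfl, h3, h4⟩ := List.map_eq_append_iff.1 h2
    obtain ⟨B, rfl, h5⟩ := ih h4
    refine ⟨(ρ1, ρ2) :: B, by simp [flat], .cons ⟨h1, h3⟩ h5⟩

theorem flat_inj {B B' : List (List V.Tr × List V.Tr)} {ps : List (ℕ × ℕ)} (h : Lab V B ps)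
    (h' : Lab V B' ps) (he : flat V B = flat V B') : B = B' := by
  induction h generalizing B' with
  | nil => cases h'; rfl
  | @cons b p B ps h1 _ ih =>
    cases h' with
    | @cons b' _ B' _ h2 h3 =>
      have e1 : b.1.length = b'.1.length := by
        have := congrArg List.length (h1.1.trans h2.1.symm)
        simpa [VASS.label] using this
      have e2 : b.2.length = b'.2.length := by
        have := congrArg List.length (h1.2.trans h2.2.symm)
        simpa [VASS.label] using this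
      have h4 : b.1 ++ (b.2 ++ flat V B) = b'.1 ++ (b'.2 ++ flat V B') := by
        simpa [flat] using he
      obtain ⟨h5, h6⟩ := List.append_inj h4 e1
      obtain ⟨h7, h8⟩ := List.append_inj h6 e2
      rw [ih h3 h8, Prod.ext h5 h7]

variable (V) in
/-- The numbers `(t, T)` of the list are chosen well for the starting configurations in `S`. -/
def Good : List (ℕ × ℕ) → Set V.Conf → Prop
  | [], _ => True
  | p :: l, S => p.1 < p.2 ∧ (∀ e, 0 < e → e ≤ p.1 → e ∣ p.2 - p.1) ∧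
      (∀ c ∈ V.post S [2], ∀ ρ c', V.Fires ρ c c' → V.label ρ = List.replicate p.1 0 →
        V.Cyc ρ) ∧
      (∀ c ∈ V.post S (2 :: List.replicate p.1 0), ∀ ρ c', V.Fires ρ c c' →
        V.label ρ = List.replicate p.2 1 → V.Cyc ρ) ∧
      Good l (V.post S ((2 :: List.replicate p.1 0) ++ List.replicate p.2 1) ∪
        V.post S ((2 :: List.replicate p.2 0) ++ List.replicate p.2 1))

theorem exists_good (n : ℕ) {S : Set V.Conf} (hS : S.Finite) :
    ∃ l, l.length = n ∧ Good V l S := by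
  induction n generalizing S with
  | zero => exact ⟨[], rfl, trivial⟩
  | succ n ih =>
    obtain ⟨t, ht⟩ := exists_bound_set (post_finite hS [2]) 0
    obtain ⟨T, hT⟩ := exists_bound_set (post_finite hS (2 :: List.replicate t 0)) 1
    obtain ⟨l, h1, h2⟩ := ih ((post_finite hS
      ((2 :: List.replicate t 0) ++ List.replicate (t + t.factorial * (T + 1)) 1)).union
      (post_finite hS ((2 :: List.replicate (t + t.factorial * (T + 1)) 0) ++
        List.replicate (t + t.factorial * (T + 1)) 1)))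
    have hp := Nat.factorial_pos t
    have hm : T + 1 ≤ t.factorial * (T + 1) := Nat.le_mul_of_pos_left _ hp
    refine ⟨(t, t + t.factorial * (T + 1)) :: l, by simp [h1], ?_, ?_, ht t le_rfl, ?_, h2⟩
    · simp only
      omega
    · intro e he1 he2
      simp only [Nat.add_sub_cancel_left]
      exact (Nat.dvd_factorial he1 he2).mul_right _
    · exact hT _ (by omega)

/-- the exponents: for the indices with `μ` true the pair is `(T, T)`, otherwise `(t, T)` -/
def mode (l : List (ℕ × ℕ)) (μ : ℕ → Bool) : List (ℕ × ℕ) :=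
  l.mapIdx fun x p => (if μ x then p.2 else p.1, p.2)

theorem mode_cons (p : ℕ × ℕ) (l : List (ℕ × ℕ)) (μ : ℕ → Bool) :
    mode (p :: l) μ = (if μ 0 then p.2 else p.1, p.2) :: mode l fun x => μ (x + 1) := by
  simp [mode, List.mapIdx_cons]

theorem pump_first {α : List V.Tr} {t T : ℕ} {c c' : V.Conf} (hf : V.Fires α c c')
    (hl : V.label α = 2 :: List.replicate t 0) (hT : t < T)
    (hd : ∀ e, 0 < e → e ≤ t → e ∣ T - t)
    (hc : ∀ c1 ∈ V.post {c} [2], ∀ ρ c', V.Fires ρ c1 c' → V.label ρ = List.replicate t 0 →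
        V.Cyc ρ) :
    ∃ α' e, V.label α' = 2 :: List.replicate T 0 ∧ V.Le c' e ∧ V.Fires α' c e := by
  cases α with
  | nil => simp [VASS.label] at hl
  | cons s α =>
    obtain ⟨c1, h1, h2⟩ := hf
    have hl1 : s.2.1 = 2 := (List.cons.inj hl).1
    have hl2 : V.label α = List.replicate t 0 := (List.cons.inj hl).2
    obtain ⟨ρ1, ρ2, ρ3, rfl, h3⟩ := hc c1 ⟨c, rfl, [s], by simp [VASS.label, hl1],
      ⟨c1, h1, rfl⟩⟩ _ c' h2 hl2
    have h4 : 0 < ρ2.length := List.length_pos_iff.2 h3.1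
    have h5 : ρ1.length + ρ2.length + ρ3.length = t := by
      have := congrArg List.length hl2
      simpa [VASS.label, add_assoc] using this
    obtain ⟨k, hk⟩ := hd ρ2.length h4 (by omega)
    obtain ⟨e, h6, h7⟩ := VASS.pump h3 h2 k
    refine ⟨s :: (ρ1 ++ (List.replicate (k + 1) ρ2).flatten ++ ρ3), e, ?_, h6, c1, h1, h7⟩
    have h8 : V.label (ρ1 ++ (List.replicate (k + 1) ρ2).flatten ++ ρ3) =
        List.replicate T 0 := by
      rw [List.eq_replicate_iff] at hl2 ⊢
      obtain ⟨-, h9⟩ := hl2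
      constructor
      · simp only [VASS.label, List.length_map, List.length_append, List.length_flatten,
          List.map_replicate, List.sum_replicate, smul_eq_mul]
        rw [add_mul, one_mul]
        have : k * ρ2.length = T - t := by rw [hk, mul_comm]
        omega
      · intro b hb
        apply h9
        simp only [VASS.label, List.mem_map, List.mem_append, List.mem_flatten,
          List.mem_replicate] at hb ⊢
        obtain ⟨a, (ha | ⟨l, ⟨-, rfl⟩, ha⟩) | ha, rfl⟩ := hb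
        · exact ⟨a, Or.inl (Or.inl ha), rfl⟩
        · exact ⟨a, Or.inl (Or.inr ha), rfl⟩
        · exact ⟨a, Or.inr ha, rfl⟩
    change s.2.1 :: V.label _ = _
    rw [h8, hl1]

theorem transfer {l : List (ℕ × ℕ)} {S : Set V.Conf} (hl : Good V l S) (μ : ℕ → Bool)
    {B : List (List V.Tr × List V.Tr)} (hB : Lab V B (mode l μ)) {c c' : V.Conf} (hc : c ∈ S)
    (hf : V.Fires (flat V B) c c') :
    (∀ x (h : x < B.length), μ x = false → V.Cyc B[x].2) ∧
    ∃ B', Lab V B' (mode l fun _ => true) ∧ B.map Prod.snd = B'.map Prod.snd ∧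
      ∀ e, V.Le c e → ∃ e', V.Le c' e' ∧ V.Fires (flat V B') e e' := by
  induction l generalizing S μ B c with
  | nil =>
    cases hB
    refine ⟨by simp, [], .nil, rfl, fun e he => ?_⟩
    have hf : c = c' := hf
    subst hf
    exact ⟨e, he, rfl⟩
  | cons p l ih =>
    rw [mode_cons] at hB
    obtain ⟨h1, h2, h3, h4, h5⟩ := hl
    cases hB with
    | @cons b _ B _ g1 g2 =>
      have hfl : flat V (b :: B) = b.1 ++ (b.2 ++ flat V B) := by simp [flat]
      rw [hfl] at hf
      obtain ⟨c1, f1, hf2⟩ := fires_append.1 hf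
      obtain ⟨c2, f2, f3⟩ := fires_append.1 hf2
      have hc2 : c2 ∈ V.post S ((2 :: List.replicate p.1 0) ++ List.replicate p.2 1) ∪
          V.post S ((2 :: List.replicate p.2 0) ++ List.replicate p.2 1) := by
        have h6 : V.Fires (b.1 ++ b.2) c c2 := fires_append.2 ⟨c1, f1, f2⟩
        cases hμ : μ 0 with
        | false =>
          simp only [hμ, Bool.false_eq_true, if_false] at g1
          exact Or.inl ⟨c, hc, _, by rw [label_append, g1.1, g1.2], h6⟩
        | true =>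
          simp only [hμ, if_true] at g1
          exact Or.inr ⟨c, hc, _, by rw [label_append, g1.1, g1.2], h6⟩
      obtain ⟨a1, B', a2, a3, a4⟩ := ih h5 (fun x => μ (x + 1)) g2 hc2 f3
      constructor
      · intro x hx hμ
        cases x with
        | zero =>
          simp only [hμ, Bool.false_eq_true, if_false] at g1
          exact h4 c1 ⟨c, hc, _, g1.1, f1⟩ _ c2 f2 g1.2
        | succ x => exact a1 x (by simpa using hx) hμ
      · obtain ⟨α', e1, b1, b2, b3⟩ : ∃ α' e1, V.label α' = 2 :: List.replicate p.2 0 ∧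
            V.Le c1 e1 ∧ V.Fires α' c e1 := by
          cases hμ : μ 0 with
          | false =>
            simp only [hμ, Bool.false_eq_true, if_false] at g1
            refine pump_first f1 g1.1 h1 h2 ?_
            intro c3 hc3
            apply h3
            obtain ⟨c4, h7, ρ, h8, h9⟩ := hc3
            rw [Set.mem_singleton_iff.1 h7] at h9
            exact ⟨c, hc, ρ, h8, h9⟩
          | true =>
            simp only [hμ, if_true] at g1
            exact ⟨b.1, c1, g1.1, Le.refl _, f1⟩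
        refine ⟨(α', b.2) :: B', ?_, ?_, ?_⟩
        · rw [mode_cons]
          exact .cons ⟨b1, g1.2⟩ a2
        · simp [a3]
        · intro e he
          obtain ⟨e2, h6, h7⟩ := fires_mono b3 he
          obtain ⟨e3, h8, h9⟩ := fires_mono f2 (b2.trans h6)
          obtain ⟨e4, h10, h11⟩ := a4 e3 h8
          refine ⟨e4, h10, ?_⟩
          have : flat V ((α', b.2) :: B') = α' ++ (b.2 ++ flat V B') := by simp [flat]
          rw [this]
          exact fires_append.2 ⟨e2, h7, fires_append.2 ⟨e3, h9, h11⟩⟩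

theorem pump_block {B : List (List V.Tr × List V.Tr)} {ps : List (ℕ × ℕ)} (hB : Lab V B ps)
    {c c' : V.Conf} (hf : V.Fires (flat V B) c c') {x : ℕ} (hx : x < B.length)
    (hc : V.Cyc B[x].2) : ∃ m n B' e, ps[x]? = some (n, m) ∧ ∃ m' > m,
      Lab V B' (ps.set x (n, m')) ∧ V.Le c' e ∧ V.Fires (flat V B') c e := by
  induction hB generalizing c x with
  | nil => simp at hx
  | @cons b p B ps g1 g2 ih =>
    have hfl : flat V (b :: B) = b.1 ++ (b.2 ++ flat V B) := by simp [flat]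
    rw [hfl] at hf
    obtain ⟨c1, f1, hf2⟩ := fires_append.1 hf
    obtain ⟨c2, f2, f3⟩ := fires_append.1 hf2
    cases x with
    | zero =>
      obtain ⟨ρ1, ρ2, ρ3, h1, h2⟩ := hc
      have h1 : b.2 = ρ1 ++ ρ2 ++ ρ3 := h1
      rw [h1] at f2
      obtain ⟨e2, h3, h4⟩ := VASS.pump h2 f2 1
      obtain ⟨e, h5, h6⟩ := fires_mono f3 h3
      have h7 : 0 < ρ2.length := List.length_pos_iff.2 h2.1
      refine ⟨p.2, p.1, (b.1, ρ1 ++ (List.replicate (1 + 1) ρ2).flatten ++ ρ3) :: B, e, rfl,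
        p.2 + ρ2.length, by omega, .cons ⟨g1.1, ?_⟩ g2, h5, ?_⟩
      · have hl2 := g1.2
        rw [h1] at hl2
        rw [List.eq_replicate_iff] at hl2 ⊢
        obtain ⟨h10, h9⟩ := hl2
        constructor
        · simp only [VASS.label, List.length_map, List.length_append, List.length_flatten,
            List.map_replicate, List.sum_replicate, smul_eq_mul] at h10 ⊢
          omega
        · intro b hb
          apply h9
          simp only [VASS.label, List.mem_map, List.mem_append, List.mem_flatten,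
            List.mem_replicate] at hb ⊢
          obtain ⟨a, (ha | ⟨l, ⟨-, rfl⟩, ha⟩) | ha, rfl⟩ := hb
          · exact ⟨a, Or.inl (Or.inl ha), rfl⟩
          · exact ⟨a, Or.inl (Or.inr ha), rfl⟩
          · exact ⟨a, Or.inr ha, rfl⟩
      · have : flat V ((b.1, ρ1 ++ (List.replicate (1 + 1) ρ2).flatten ++ ρ3) :: B) =
            b.1 ++ ((ρ1 ++ (List.replicate (1 + 1) ρ2).flatten ++ ρ3) ++ flat V B) := by
          simp [flat]
        rw [this]
        exact fires_append.2 ⟨c1, f1, fires_append.2 ⟨e2, h4, h6⟩⟩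
    | succ x =>
      obtain ⟨m, n, B', e, h1, m', h2, h3, h4, h5⟩ := ih f3 (x := x) (by simpa using hx) hc
      refine ⟨m, n, b :: B', e, h1, m', h2, .cons g1 h3, h4, ?_⟩
      have : flat V (b :: B') = b.1 ++ (b.2 ++ flat V B') := by simp [flat]
      rw [this]
      exact fires_append.2 ⟨c1, f1, fires_append.2 ⟨c2, f2, h5⟩⟩

end

/-! ### The automata -/

/-- The VASS that guesses one of the blocks with index in `[lo, hi)` and checks it. -/
def aut (lo hi : ℕ) : VASS 1 (Fin 3) where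
  Q := Fin (hi + 1) ⊕ Bool
  finQ := inferInstance
  T := {t | (∃ j x, x ≠ 2 ∧ t = (Sum.inl j, x, fun _ => 0, Sum.inl j)) ∨
    (∃ j j' : Fin (hi + 1), j'.1 = j.1 + 1 ∧ t = (Sum.inl j, 2, fun _ => 0, Sum.inl j')) ∨
    (∃ j : Fin (hi + 1), lo ≤ j.1 ∧ j.1 < hi ∧
      t = (Sum.inl j, 2, fun _ => 0, Sum.inr false)) ∨
    t = (Sum.inr false, 0, fun _ => 1, Sum.inr false) ∨
    t = (Sum.inr false, 1, fun _ => -1, Sum.inr false) ∨
    t = (Sum.inr false, 2, fun _ => 0, Sum.inr true) ∨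
    ∃ x, t = (Sum.inr true, x, fun _ => 0, Sum.inr true)}
  finT := by
    have h : (({fun _ => 0, fun _ => 1, fun _ => -1} : Set (Fin 1 → ℤ))).Finite := by simp
    refine ((Set.finite_univ (α := Fin (hi + 1) ⊕ Bool)).prod ((Set.finite_univ (α := Fin 3)).prod
      (h.prod (Set.finite_univ (α := Fin (hi + 1) ⊕ Bool))))).subset ?_
    rintro t (⟨j, x, -, rfl⟩ | ⟨j, j', -, rfl⟩ | ⟨j, -, -, rfl⟩ | rfl | rfl | rfl | ⟨x, rfl⟩) <;>
      simp
  q0 := Sum.inl 0
  c0 := fun _ => 0
  F := {q | ∃ b, q = Sum.inr b}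

/-- accepting runs starting with a given letter -/
theorem accFrom_cons {V : VASS d Λ} {c : V.Conf} {x : Λ} {w : List Λ} {ρ : List V.Tr} :
    ρ ∈ V.accFrom c (x :: w) ↔ ∃ t c1 ρ', ρ = t :: ρ' ∧ t.2.1 = x ∧ V.Step t c c1 ∧
      ρ' ∈ V.accFrom c1 w := by
  constructor
  · rintro ⟨h1, c', h2, h3⟩
    cases ρ with
    | nil => simp [VASS.label] at h1
    | cons t ρ =>
      obtain ⟨c1, h4, h5⟩ := h2
      exact ⟨t, c1, ρ, rfl, (List.cons.inj h1).1, h4, (List.cons.inj h1).2, c', h5, h3⟩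
  · rintro ⟨t, c1, ρ', rfl, rfl, h1, h2, c', h3, h4⟩
    exact ⟨by rw [← h2]; rfl, c', ⟨c1, h1, h3⟩, h4⟩

section

variable {lo hi : ℕ}

theorem step_wait {j : Fin (hi + 1)} {v : Fin 1 → ℕ} {x : Fin 3} (hx : x ≠ 2)
    {t : (aut lo hi).Tr} {c1 : (aut lo hi).Conf} (hl : t.2.1 = x)
    (h : (aut lo hi).Step t (Sum.inl j, v) c1) :
    t = (Sum.inl j, x, fun _ => 0, Sum.inl j) ∧ c1 = (Sum.inl j, v) := by
  obtain ⟨ht, h1, h2, h3⟩ := h
  rcases ht with ⟨j', y, hy, rfl⟩ | ⟨j1, j', -, rfl⟩ | ⟨j1, -, -, rfl⟩ | rfl | rfl | rfl | ⟨x, rfl⟩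
  · obtain rfl := Sum.inl.inj h1
    simp only at hl
    subst hl
    refine ⟨rfl, Prod.ext h2.symm ?_⟩
    funext i
    have := h3 i
    simp only [add_zero, Nat.cast_inj] at this
    exact this
  · exact (hx hl.symm).elim
  · exact (hx hl.symm).elim
  all_goals simp at h1

theorem step_wait2 {j : Fin (hi + 1)} {v : Fin 1 → ℕ}
    {t : (aut lo hi).Tr} {c1 : (aut lo hi).Conf} (hl : t.2.1 = 2)
    (h : (aut lo hi).Step t (Sum.inl j, v) c1) :
    (∃ j' : Fin (hi + 1), j'.1 = j.1 + 1 ∧ t = (Sum.inl j, 2, fun _ => 0, Sum.inl j') ∧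
      c1 = (Sum.inl j', v)) ∨
    (lo ≤ j.1 ∧ j.1 < hi ∧ t = (Sum.inl j, 2, fun _ => 0, Sum.inr false) ∧
      c1 = (Sum.inr false, v)) := by
  obtain ⟨ht, h1, h2, h3⟩ := h
  rcases ht with ⟨j', y, hy, rfl⟩ | ⟨j1, j', hj, rfl⟩ | ⟨j1, g1, g2, rfl⟩ | rfl | rfl | rfl |
    ⟨x, rfl⟩
  · exact (hy hl).elim
  · obtain rfl := Sum.inl.inj h1
    refine Or.inl ⟨j', hj, rfl, Prod.ext h2.symm ?_⟩
    funext i
    have := h3 i
    simp only [add_zero, Nat.cast_inj] at this
    exact this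
  · obtain rfl := Sum.inl.inj h1
    refine Or.inr ⟨g1, g2, rfl, Prod.ext h2.symm ?_⟩
    funext i
    have := h3 i
    simp only [add_zero, Nat.cast_inj] at this
    exact this
  all_goals simp at h1

theorem step_count {v : Fin 1 → ℕ} {x : Fin 3}
    {t : (aut lo hi).Tr} {c1 : (aut lo hi).Conf} (hl : t.2.1 = x)
    (h : (aut lo hi).Step t (Sum.inr false, v) c1) :
    (x = 0 ∧ t = (Sum.inr false, 0, fun _ => 1, Sum.inr false) ∧
      c1 = (Sum.inr false, fun i => v i + 1)) ∨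
    (x = 1 ∧ t = (Sum.inr false, 1, fun _ => -1, Sum.inr false) ∧ 1 ≤ v 0 ∧
      c1 = (Sum.inr false, fun i => v i - 1)) ∨
    (x = 2 ∧ t = (Sum.inr false, 2, fun _ => 0, Sum.inr true) ∧ c1 = (Sum.inr true, v)) := by
  obtain ⟨ht, h1, h2, h3⟩ := h
  rcases ht with ⟨j', y, hy, rfl⟩ | ⟨j1, j', hj, rfl⟩ | ⟨j1, g1, g2, rfl⟩ | rfl | rfl | rfl |
    ⟨x, rfl⟩
  · simp at h1
  · simp at h1
  · simp at h1
  · refine Or.inl ⟨hl.symm, rfl, Prod.ext h2.symm ?_⟩
    funext i
    have := h3 i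
    simp only at this ⊢
    omega
  · refine Or.inr (Or.inl ⟨hl.symm, rfl, ?_, Prod.ext h2.symm ?_⟩)
    · have := h3 0
      simp only at this ⊢
      omega
    · funext i
      have := h3 i
      simp only at this ⊢
      omega
  · refine Or.inr (Or.inr ⟨hl.symm, rfl, Prod.ext h2.symm ?_⟩)
    funext i
    have := h3 i
    simp only [add_zero, Nat.cast_inj] at this
    exact this
  · exact absurd (Sum.inr.inj h1) (by decide)

theorem step_done {v : Fin 1 → ℕ} {x : Fin 3}
    {t : (aut lo hi).Tr} {c1 : (aut lo hi).Conf} (hl : t.2.1 = x)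
    (h : (aut lo hi).Step t (Sum.inr true, v) c1) :
    t = (Sum.inr true, x, fun _ => 0, Sum.inr true) ∧ c1 = (Sum.inr true, v) := by
  obtain ⟨ht, h1, h2, h3⟩ := h
  rcases ht with ⟨j', y, hy, rfl⟩ | ⟨j1, j', hj, rfl⟩ | ⟨j1, g1, g2, rfl⟩ | rfl | rfl | rfl |
    ⟨y, rfl⟩
  · simp at h1
  · simp at h1
  · simp at h1
  · exact absurd (Sum.inr.inj h1) (by decide)
  · exact absurd (Sum.inr.inj h1) (by decide)
  · exact absurd (Sum.inr.inj h1) (by decide)
  · simp only at hl
    subst hl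
    refine ⟨rfl, Prod.ext h2.symm ?_⟩
    funext i
    have := h3 i
    simp only [add_zero, Nat.cast_inj] at this
    exact this

theorem acc_done (v : Fin 1 → ℕ) (w : List (Fin 3)) :
    ((aut lo hi).accFrom (Sum.inr true, v) w).Subsingleton := by
  induction w with
  | nil =>
    rintro ρ ⟨h1, -⟩ ρ' ⟨h2, -⟩
    simp only [VASS.label, List.map_eq_nil_iff] at h1 h2
    rw [h1, h2]
  | cons x w ih =>
    intro ρ h1 ρ' h2
    obtain ⟨t, c1, ρ, rfl, hl, hs, h3⟩ := accFrom_cons.1 h1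
    obtain ⟨t', c1', ρ', rfl, hl', hs', h3'⟩ := accFrom_cons.1 h2
    obtain ⟨rfl, rfl⟩ := step_done hl hs
    obtain ⟨rfl, rfl⟩ := step_done hl' hs'
    rw [ih h3 h3']

theorem acc_count (v : Fin 1 → ℕ) (w : List (Fin 3)) :
    ((aut lo hi).accFrom (Sum.inr false, v) w).Subsingleton := by
  induction w generalizing v with
  | nil =>
    rintro ρ ⟨h1, -⟩ ρ' ⟨h2, -⟩
    simp only [VASS.label, List.map_eq_nil_iff] at h1 h2
    rw [h1, h2]
  | cons x w ih =>
    intro ρ h1 ρ' h2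
    obtain ⟨t, c1, ρ, rfl, hl, hs, h3⟩ := accFrom_cons.1 h1
    obtain ⟨t', c1', ρ', rfl, hl', hs', h3'⟩ := accFrom_cons.1 h2
    rcases step_count hl hs with ⟨hx, rfl, rfl⟩ | ⟨hx, rfl, -, rfl⟩ | ⟨hx, rfl, rfl⟩ <;>
      rcases step_count hl' hs' with ⟨hx', rfl, rfl⟩ | ⟨hx', rfl, -, rfl⟩ | ⟨hx', rfl, rfl⟩ <;>
      first
        | (rw [hx] at hx'; exact absurd hx' (by decide))
        | rw [ih _ h3 h3']
        | rw [acc_done _ _ h3 h3']

theorem acc_wait (j : Fin (hi + 1)) (v : Fin 1 → ℕ) (w : List (Fin 3)) :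
    ((aut lo hi).accFrom (Sum.inl j, v) w).encard ≤ (hi - max lo j.1 : ℕ) := by
  induction w generalizing j with
  | nil =>
    have : (aut lo hi).accFrom (Sum.inl j, v) [] = ∅ := by
      rw [Set.eq_empty_iff_forall_notMem]
      rintro ρ ⟨h1, c, h2, h3⟩
      simp only [VASS.label, List.map_eq_nil_iff] at h1
      subst h1
      have h2 : (Sum.inl j, v) = c := h2
      subst h2
      obtain ⟨b, hb⟩ := h3
      simp at hb
    rw [this]
    simp
  | cons x w ih =>
    by_cases hx : x = 2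
    · subst hx
      by_cases hj : j.1 < hi
      · have h1 : (aut lo hi).accFrom (Sum.inl j, v) (2 :: w) ⊆
            (fun ρ => ((Sum.inl j, 2, fun _ => 0, Sum.inl ⟨j.1 + 1, by omega⟩) :
              (aut lo hi).Tr) :: ρ) '' (aut lo hi).accFrom (Sum.inl ⟨j.1 + 1, by omega⟩, v) w ∪
            {ρ | lo ≤ j.1 ∧ ρ ∈ (fun ρ => ((Sum.inl j, 2, fun _ => 0, Sum.inr false) :
              (aut lo hi).Tr) :: ρ) '' (aut lo hi).accFrom (Sum.inr false, v) w} := by
          intro ρ h
          obtain ⟨t, c1, ρ, rfl, hl, hs, h3⟩ := accFrom_cons.1 h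
          rcases step_wait2 hl hs with ⟨j', g1, rfl, rfl⟩ | ⟨g1, g2, rfl, rfl⟩
          · left
            have : (⟨j.1 + 1, by omega⟩ : Fin (hi + 1)) = j' := Fin.ext g1.symm
            rw [this]
            exact ⟨ρ, h3, rfl⟩
          · exact Or.inr ⟨g1, ρ, h3, rfl⟩
        refine (Set.encard_le_encard h1).trans ((Set.encard_union_le _ _).trans ?_)
        have h2 := (Set.encard_image_le (fun ρ => ((Sum.inl j, 2, fun _ => 0,
          Sum.inl ⟨j.1 + 1, by omega⟩) : (aut lo hi).Tr) :: ρ)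
          ((aut lo hi).accFrom (Sum.inl ⟨j.1 + 1, by omega⟩, v) w)).trans
            (ih ⟨j.1 + 1, by omega⟩)
        by_cases hlo : lo ≤ j.1
        · have h3 : {ρ | lo ≤ j.1 ∧ ρ ∈ (fun ρ => ((Sum.inl j, 2, fun _ => 0, Sum.inr false) :
              (aut lo hi).Tr) :: ρ) '' (aut lo hi).accFrom (Sum.inr false, v) w}.encard ≤ 1 := by
            rw [Set.encard_le_one_iff]
            rintro _ _ ⟨-, a, ha, rfl⟩ ⟨-, b, hb, rfl⟩
            rw [acc_count v w ha hb]
          refine (add_le_add h2 h3).trans ?_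
          have : (hi - max lo (j.1 + 1)) + 1 ≤ hi - max lo j.1 := by omega
          exact_mod_cast this
        · have h3 : {ρ | lo ≤ j.1 ∧ ρ ∈ (fun ρ => ((Sum.inl j, 2, fun _ => 0, Sum.inr false) :
              (aut lo hi).Tr) :: ρ) '' (aut lo hi).accFrom (Sum.inr false, v) w} = ∅ := by
            rw [Set.eq_empty_iff_forall_notMem]
            rintro ρ ⟨h, -⟩
            exact hlo h
          rw [h3, Set.encard_empty, add_zero]
          refine h2.trans ?_
          have : hi - max lo (j.1 + 1) ≤ hi - max lo j.1 := by omega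
          exact_mod_cast this
      · have : (aut lo hi).accFrom (Sum.inl j, v) (2 :: w) = ∅ := by
          rw [Set.eq_empty_iff_forall_notMem]
          intro ρ h
          obtain ⟨t, c1, ρ, rfl, hl, hs, h3⟩ := accFrom_cons.1 h
          rcases step_wait2 hl hs with ⟨j', g1, rfl, rfl⟩ | ⟨g1, g2, rfl, rfl⟩
          · have := j'.2
            omega
          · exact hj g2
        rw [this]
        simp
    · have h1 : (aut lo hi).accFrom (Sum.inl j, v) (x :: w) ⊆
          (fun ρ => ((Sum.inl j, x, fun _ => 0, Sum.inl j) : (aut lo hi).Tr) :: ρ) ''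
            (aut lo hi).accFrom (Sum.inl j, v) w := by
        intro ρ h
        obtain ⟨t, c1, ρ, rfl, hl, hs, h3⟩ := accFrom_cons.1 h
        obtain ⟨rfl, rfl⟩ := step_wait hx hl hs
        exact ⟨ρ, h3, rfl⟩
      exact (Set.encard_le_encard h1).trans ((Set.encard_image_le _ _).trans (ih j))

theorem ambiguous_aut : (aut lo hi).Ambiguous (hi - lo) := by
  intro w
  have h := acc_wait (lo := lo) (hi := hi) 0 (fun _ => 0) w
  rw [show hi - max lo ((0 : Fin (hi + 1)) : ℕ) = hi - lo by simp] at h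
  exact h

theorem nonempty_cons {V : VASS d Λ} {c : V.Conf} {x : Λ} {w : List Λ} :
    (V.accFrom c (x :: w)).Nonempty ↔ ∃ t c1, t.2.1 = x ∧ V.Step t c c1 ∧
      (V.accFrom c1 w).Nonempty := by
  constructor
  · rintro ⟨ρ, h⟩
    obtain ⟨t, c1, ρ, -, hl, hs, h3⟩ := accFrom_cons.1 h
    exact ⟨t, c1, hl, hs, ρ, h3⟩
  · rintro ⟨t, c1, hl, hs, ρ, h3⟩
    exact ⟨_, accFrom_cons.2 ⟨t, c1, ρ, rfl, hl, hs, h3⟩⟩

theorem ne_wait {j : Fin (hi + 1)} {v : Fin 1 → ℕ} {x : Fin 3} (hx : x ≠ 2) (n : ℕ)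
    {w : List (Fin 3)} :
    ((aut lo hi).accFrom (Sum.inl j, v) (List.replicate n x ++ w)).Nonempty ↔
      ((aut lo hi).accFrom (Sum.inl j, v) w).Nonempty := by
  induction n with
  | zero => simp
  | succ n ih =>
    rw [List.replicate_succ, List.cons_append, nonempty_cons]
    constructor
    · rintro ⟨t, c1, hl, hs, h⟩
      obtain ⟨rfl, rfl⟩ := step_wait hx hl hs
      exact ih.1 h
    · intro h
      exact ⟨(Sum.inl j, x, fun _ => 0, Sum.inl j), (Sum.inl j, v), rfl,
        ⟨Or.inl ⟨j, x, hx, rfl⟩, rfl, rfl, fun i => by simp⟩, ih.2 h⟩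

theorem ne_wait2 {j : Fin (hi + 1)} {v : Fin 1 → ℕ} {w : List (Fin 3)} :
    ((aut lo hi).accFrom (Sum.inl j, v) (2 :: w)).Nonempty ↔
      (∃ j' : Fin (hi + 1), j'.1 = j.1 + 1 ∧
        ((aut lo hi).accFrom (Sum.inl j', v) w).Nonempty) ∨
      (lo ≤ j.1 ∧ j.1 < hi ∧ ((aut lo hi).accFrom (Sum.inr false, v) w).Nonempty) := by
  rw [nonempty_cons]
  constructor
  · rintro ⟨t, c1, hl, hs, h⟩
    rcases step_wait2 hl hs with ⟨j', g1, rfl, rfl⟩ | ⟨g1, g2, rfl, rfl⟩
    · exact Or.inl ⟨j', g1, h⟩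
    · exact Or.inr ⟨g1, g2, h⟩
  · rintro (⟨j', g1, h⟩ | ⟨g1, g2, h⟩)
    · exact ⟨(Sum.inl j, 2, fun _ => 0, Sum.inl j'), (Sum.inl j', v), rfl,
        ⟨Or.inr (Or.inl ⟨j, j', g1, rfl⟩), rfl, rfl, fun i => by simp⟩, h⟩
    · exact ⟨(Sum.inl j, 2, fun _ => 0, Sum.inr false), (Sum.inr false, v), rfl,
        ⟨Or.inr (Or.inr (Or.inl ⟨j, g1, g2, rfl⟩)), rfl, rfl, fun i => by simp⟩, h⟩

theorem ne_done (v : Fin 1 → ℕ) (w : List (Fin 3)) :
    ((aut lo hi).accFrom (Sum.inr true, v) w).Nonempty := by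
  induction w with
  | nil => exact ⟨[], rfl, _, rfl, true, rfl⟩
  | cons x w ih =>
    rw [nonempty_cons]
    exact ⟨(Sum.inr true, x, fun _ => 0, Sum.inr true), (Sum.inr true, v), rfl,
      ⟨Or.inr (Or.inr (Or.inr (Or.inr (Or.inr (Or.inr ⟨x, rfl⟩))))), rfl, rfl,
        fun i => by simp⟩, ih⟩

theorem ne_count0 (n m : ℕ) (w : List (Fin 3)) :
    ((aut lo hi).accFrom (Sum.inr false, fun _ => n) (List.replicate m 0 ++ w)).Nonempty ↔
      ((aut lo hi).accFrom (Sum.inr false, fun _ => n + m) w).Nonempty := by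
  induction m generalizing n with
  | zero => simp
  | succ m ih =>
    rw [List.replicate_succ, List.cons_append, nonempty_cons]
    have h1 : (fun _ : Fin 1 => n + (m + 1)) = fun _ => n + 1 + m := by
      funext _
      omega
    rw [h1, ← ih]
    constructor
    · rintro ⟨t, c1, hl, hs, h⟩
      rcases step_count hl hs with ⟨-, rfl, rfl⟩ | ⟨hx, -⟩ | ⟨hx, -⟩
      · exact h
      · exact absurd hx (by decide)
      · exact absurd hx (by decide)
    · intro h
      exact ⟨(Sum.inr false, 0, fun _ => 1, Sum.inr false), (Sum.inr false, fun _ => n + 1), rfl,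
        ⟨Or.inr (Or.inr (Or.inr (Or.inl rfl))), rfl, rfl, fun i => by simp⟩, h⟩

theorem ne_count1 (n m : ℕ) (w : List (Fin 3)) :
    ((aut lo hi).accFrom (Sum.inr false, fun _ => n) (List.replicate m 1 ++ w)).Nonempty ↔
      m ≤ n ∧ ((aut lo hi).accFrom (Sum.inr false, fun _ => n - m) w).Nonempty := by
  induction m generalizing n with
  | zero => simp
  | succ m ih =>
    rw [List.replicate_succ, List.cons_append, nonempty_cons]
    constructor
    · rintro ⟨t, c1, hl, hs, h⟩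
      rcases step_count hl hs with ⟨hx, -⟩ | ⟨-, rfl, h1, rfl⟩ | ⟨hx, -⟩
      · exact absurd hx (by decide)
      · obtain ⟨h2, h3⟩ := (ih (n - 1)).1 h
        have h1 : 1 ≤ n := h1
        refine ⟨by omega, ?_⟩
        have h4 : (fun _ : Fin 1 => n - (m + 1)) = fun _ => n - 1 - m := by
          funext _
          omega
        rw [h4]
        exact h3
      · exact absurd hx (by decide)
    · rintro ⟨h1, h⟩
      refine ⟨(Sum.inr false, 1, fun _ => -1, Sum.inr false), (Sum.inr false, fun _ => n - 1), rfl,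
        ⟨Or.inr (Or.inr (Or.inr (Or.inr (Or.inl rfl)))), rfl, rfl, fun i => ?_⟩, ?_⟩
      · simp only
        omega
      · refine (ih (n - 1)).2 ⟨by omega, ?_⟩
        have h4 : (fun _ : Fin 1 => n - (m + 1)) = fun _ => n - 1 - m := by
          funext _
          omega
        rw [← h4]
        exact h

theorem ne_count_W (v : Fin 1 → ℕ) (ps : List (ℕ × ℕ)) :
    ((aut lo hi).accFrom (Sum.inr false, v) (W ps)).Nonempty := by
  cases ps with
  | nil => exact ⟨[], rfl, _, rfl, false, rfl⟩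
  | cons p ps =>
    rw [W_cons, List.cons_append, nonempty_cons]
    exact ⟨(Sum.inr false, 2, fun _ => 0, Sum.inr true), (Sum.inr true, v), rfl,
      ⟨Or.inr (Or.inr (Or.inr (Or.inr (Or.inr (Or.inl rfl))))), rfl, rfl,
        fun i => by simp⟩, ne_done _ _⟩

theorem ne_W (j : Fin (hi + 1)) (ps : List (ℕ × ℕ)) :
    ((aut lo hi).accFrom (Sum.inl j, fun _ => 0) (W ps)).Nonempty ↔
      ∃ x p, lo ≤ j.1 + x ∧ j.1 + x < hi ∧ ps[x]? = some p ∧ p.2 ≤ p.1 := by
  induction ps generalizing j with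
  | nil =>
    constructor
    · rintro ⟨ρ, h1, c, h2, h3⟩
      have h1 : ρ = [] := by simpa [VASS.label, W] using h1
      subst h1
      have h2 : (Sum.inl j, fun _ => 0) = c := h2
      subst h2
      obtain ⟨b, hb⟩ := h3
      simp at hb
    · rintro ⟨x, p, -, -, h, -⟩
      simp at h
  | cons p ps ih =>
    rw [W_cons, List.cons_append, ne_wait2]
    constructor
    · rintro (⟨j', h1, h2⟩ | ⟨h1, h2, h3⟩)
      · rw [ne_wait (by decide), ne_wait (by decide), ih] at h2
        obtain ⟨x, q, h3, h4, h5, h6⟩ := h2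
        exact ⟨x + 1, q, by omega, by omega, h5, h6⟩
      · rw [ne_count0, ne_count1] at h3
        exact ⟨0, p, by omega, by omega, rfl, by omega⟩
    · rintro ⟨x, q, h3, h4, h5, h6⟩
      cases x with
      | zero =>
        right
        refine ⟨h3, h4, ?_⟩
        rw [ne_count0, ne_count1]
        have h5 : p = q := by simpa using h5
        subst h5
        exact ⟨by omega, ne_count_W _ _⟩
      | succ x =>
        left
        refine ⟨⟨j.1 + 1, by omega⟩, rfl, ?_⟩
        rw [ne_wait (by decide), ne_wait (by decide), ih]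
        exact ⟨x, q, by simp only; omega, by simp only; omega, h5, h6⟩

theorem mem_lang (ps : List (ℕ × ℕ)) : W ps ∈ (aut lo hi).lang ↔
    ∃ x p, lo ≤ x ∧ x < hi ∧ ps[x]? = some p ∧ p.2 ≤ p.1 := by
  have h := ne_W (lo := lo) (hi := hi) 0 ps
  simp only [Fin.val_zero, zero_add] at h
  exact h

end

theorem mode_get (l : List (ℕ × ℕ)) (μ : ℕ → Bool) (x : ℕ) (h : x < l.length) :
    (mode l μ)[x]? = some (if μ x then l[x].2 else l[x].1, l[x].2) := by
  simp [mode, List.getElem?_mapIdx, h]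

theorem mode_length (l : List (ℕ × ℕ)) (μ : ℕ → Bool) : (mode l μ).length = l.length := by
  simp [mode]

theorem Good.lt {V : VASS d (Fin 3)} {l : List (ℕ × ℕ)} {S : Set V.Conf} (h : Good V l S) (x : ℕ)
    (hx : x < l.length) : l[x].1 < l[x].2 := by
  induction l generalizing S x with
  | nil => simp at hx
  | cons p l ih =>
    cases x with
    | zero => exact h.1
    | succ x => exact ih h.2.2.2.2 x (by simpa using hx)

end VASS

open VASS

/-- The bound `k₁ k₂` for the ambiguity of the intersection of a `k₁`-ambiguous and a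
`k₂`-ambiguous VASS language is tight, over a three letter alphabet. -/
theorem result (k₁ k₂ : ℕ) (h₁ : 0 < k₁) (h₂ : 0 < k₂) : ∃ L₁ L₂ : Set (List (Fin 3)),
    (∃ (d : ℕ) (V : VASS d (Fin 3)), V.Ambiguous k₁ ∧ V.lang = L₁) ∧
    (∃ (d : ℕ) (V : VASS d (Fin 3)), V.Ambiguous k₂ ∧ V.lang = L₂) ∧
    ∀ n < k₁ * k₂, ¬ ∃ (d : ℕ) (V : VASS d (Fin 3)), V.Ambiguous n ∧ V.lang = L₁ ∩ L₂ := by
  refine ⟨(aut 0 k₁).lang, (aut k₁ (k₁ + k₂)).lang, ⟨1, aut 0 k₁, ambiguous_aut, rfl⟩,
    ⟨1, aut k₁ (k₁ + k₂), ?_, rfl⟩, ?_⟩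
  · have := ambiguous_aut (lo := k₁) (hi := k₁ + k₂)
    rwa [Nat.add_sub_cancel_left] at this
  rintro n hn ⟨d, V, hV, hL⟩
  obtain ⟨l, hl, hg⟩ := exists_good (V := V) (k₁ + k₂) (Set.finite_singleton (V.q0, V.c0))
  let μ : Fin k₁ × Fin k₂ → ℕ → Bool := fun p x => decide (x = p.1.1 ∨ x = k₁ + p.2.1)
  have hmem : ∀ p, W (mode l (μ p)) ∈ V.lang := by
    intro p
    rw [hL]
    refine ⟨(mem_lang _).2 ⟨p.1.1, _, Nat.zero_le _, p.1.2, mode_get l _ _ (by
      have := p.1.2; omega), ?_⟩, (mem_lang _).2 ⟨k₁ + p.2.1, _, Nat.le_add_right _ _, by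
      have := p.2.2; omega, mode_get l _ _ (by have := p.2.2; omega), ?_⟩⟩
    · simp [μ]
    · simp [μ]
  have hrun : ∀ p, ∃ B c, Lab V B (mode l (μ p)) ∧ V.Fires (flat V B) (V.q0, V.c0) c ∧
      c.1 ∈ V.F := by
    intro p
    obtain ⟨ρ, h3, c, h4, h5⟩ := hmem p
    obtain ⟨B, rfl, h6⟩ := exists_lab h3
    exact ⟨B, c, h6, h4, h5⟩
  choose B c hB hf hc using hrun
  choose hcyc B' hB' hsnd hrun' using fun p =>
    transfer hg (μ p) (hB p) (Set.mem_singleton _) (hf p)
  have hacc : ∀ p, flat V (B' p) ∈ V.accRuns (W (mode l fun _ => true)) := by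
    intro p
    obtain ⟨e, h3, h4⟩ := hrun' p (V.q0, V.c0) (Le.refl _)
    refine ⟨(hB' p).label, e, h4, ?_⟩
    rw [← h3.1]
    exact hc p
  have hlen : ∀ p, (B p).length = k₁ + k₂ := by
    intro p
    rw [(hB p).length_eq, mode_length, hl]
  -- the blocks chosen by `p` contain no loop
  have hno : ∀ p x (hx : x < (B p).length), μ p x = true → ¬ V.Cyc (B p)[x].2 := by
    intro p x hx hμ hcy
    obtain ⟨m, n', B1, e, h3, m', h4, h5, h6, h7⟩ := pump_block (hB p) (hf p) hx hcy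
    have hxl : x < l.length := by rw [hl, ← hlen p]; exact hx
    rw [mode_get l _ x hxl, hμ] at h3
    simp only [if_true, Option.some.injEq, Prod.mk.injEq] at h3
    obtain ⟨h3a, h3b⟩ := h3
    have h8 : W ((mode l (μ p)).set x (n', m')) ∈ V.lang := by
      refine ⟨flat V B1, h5.label, e, h7, ?_⟩
      rw [← h6.1]
      exact hc p
    rw [hL] at h8
    obtain ⟨h8a, h8b⟩ := h8
    obtain ⟨y, q, -, hy1, hy2, hy3⟩ := (mem_lang _).1 h8a
    obtain ⟨z, r, hz0, hz1, hz2, hz3⟩ := (mem_lang _).1 h8b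
    have key : ∀ y q, y < k₁ + k₂ → ((mode l (μ p)).set x (n', m'))[y]? = some q → q.2 ≤ q.1 →
        μ p y = true ∧ y ≠ x := by
      intro y q hy h9 h10
      rw [List.getElem?_set] at h9
      split_ifs at h9 with h11 h12
      · have : q = (n', m') := (Option.some.inj h9).symm
        rw [this] at h10
        simp only at h10
        omega
      · rw [mode_get l _ y (by omega)] at h9
        have h13 := Option.some.inj h9
        rw [← h13] at h10
        have h14 := hg.lt y (by omega)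
        refine ⟨?_, fun h => h11 h.symm⟩
        by_contra h15
        simp only [h15, Bool.false_eq_true, if_false] at h10
        omega
    obtain ⟨hy4, hy5⟩ := key y q (by omega) hy2 hy3
    obtain ⟨hz4, hz5⟩ := key z r (by omega) hz2 hz3
    have hp1 := p.1.2
    have hp2 := p.2.2
    simp only [μ, decide_eq_true_eq] at hμ hy4 hz4
    omega
  -- the runs are distinct
  have hinj : Function.Injective fun p => flat V (B' p) := by
    intro p q hpq
    have h3 : B' p = B' q := flat_inj (hB' p) (hB' q) hpq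
    have h4 : (B p).map Prod.snd = (B q).map Prod.snd := by rw [hsnd, hsnd, h3]
    have h5 : ∀ x, x < k₁ + k₂ → μ p x = true → μ q x = true := by
      intro x hx h6
      by_contra h7
      have h7 : μ q x = false := by simpa using h7
      have h8 := hcyc q x (by rw [hlen]; exact hx) h7
      have h9 := hno p x (by rw [hlen]; exact hx) h6
      apply h9
      have h10 : ((B p).map Prod.snd)[x]? = ((B q).map Prod.snd)[x]? := by rw [h4]
      rw [List.getElem?_map, List.getElem?_map, List.getElem?_eq_getElem (by rw [hlen]; exact hx),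
        List.getElem?_eq_getElem (by rw [hlen]; exact hx)] at h10
      simp only [Option.map_some, Option.some.injEq] at h10
      rw [h10]
      exact h8
    have hp1 := p.1.2
    have hp2 := p.2.2
    have hq1 := q.1.2
    have h6 := h5 p.1.1 (by omega) (by simp [μ])
    have h7 := h5 (k₁ + p.2.1) (by omega) (by simp [μ])
    simp only [μ, decide_eq_true_eq] at h6 h7
    refine Prod.ext (Fin.ext ?_) (Fin.ext ?_) <;> omega
  have hcard : ((k₁ * k₂ : ℕ) : ℕ∞) ≤ (V.accRuns (W (mode l fun _ => true))).encard := by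
    have h3 : Set.range (fun p => flat V (B' p)) ⊆ V.accRuns (W (mode l fun _ => true)) := by
      rintro _ ⟨p, rfl⟩
      exact hacc p
    refine le_trans ?_ (Set.encard_le_encard h3)
    rw [← Set.image_univ, hinj.encard_image, Set.encard_univ]
    simp
  have h3 := hcard.trans (hV _)
  have h4 : k₁ * k₂ ≤ n := by exact_mod_cast h3
  omega

end Pool.Agent.Results.MP_bb7684_lc.Intersection
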